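import Pool.Agent.helper29.RS.SpecK

/-!
# MP_07c750: rare scars, row BK1 (the bound for the boundary integral)
-/

set_option autoImplicit false

open scoped MatrixGroups ContDiff Topology UpperHalfPlane ComplexConjugate
open UpperHalfPlane MeasureTheory Filter Set

namespace Pool.Agent.RS

theorem BK1 (hBKA : BKA_stmt) (hBKB : BKB_stmt) : BK1_stmt := by
  intro C hC
  obtain ⟨KA, hKA, hA⟩ := hBKA C hC
  obtain ⟨KB, hKB, hB⟩ := hBKB C hC
  refine ⟨KA + 4 * KB, by positivity, ?_⟩
  intro r s t hr hs
  rcases le_total 4 |t| with h | h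
  · have := hA r s t hr hs h
    linarith
  · have h1 := hB r s t hr hs h
    have h2 : max r |t| ≤ 4 * r := max_le (by linarith) (by linarith)
    have h3 : max r |t| * ‖bI C r s t‖ ≤ 4 * r * ‖bI C r s t‖ :=
      mul_le_mul_of_nonneg_right h2 (norm_nonneg _)
    linarith

end Pool.Agent.RS
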