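import Pool.Agent.helper29.RS.SpecK

/-!
# MP_07c750: rare scars, row BK2 (pointwise limit of the boundary integral)
-/

set_option autoImplicit false

open scoped MatrixGroups ContDiff Topology UpperHalfPlane ComplexConjugate
open UpperHalfPlane MeasureTheory Filter Set

namespace Pool.Agent.RS

/-- the integrand with the normalised kernel -/
noncomputable def BK2_f (C : ℝ → ℝ → ℂ) (r s t T : ℝ) (τ x : ℝ) : ℂ :=
  C x τ * Complex.exp ((((r - s) * τ : ℝ) : ℂ) * Complex.I) *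
    ((((x - t) ^ 2 + Real.exp (2 * τ)) / T : ℝ) : ℂ) ^ (-(1 / 2 : ℂ) + (s : ℂ) * Complex.I)

theorem BK2_factor (C : ℝ → ℝ → ℂ) (r s t T : ℝ) (hT : 0 < T) :
    bI C r s t = (T : ℂ) ^ (-(1 / 2 : ℂ) + (s : ℂ) * Complex.I) * ∫ τ : ℝ, ∫ x : ℝ, BK2_f C r s t T τ x := by
  unfold bI
  rw [← integral_const_mul]
  apply integral_congr_ae
  refine Eventually.of_forall fun τ => ?_
  simp only
  rw [← integral_const_mul]
  apply integral_congr_ae
  refine Eventually.of_forall fun x => ?_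
  have h1 : (((x - t) ^ 2 + Real.exp (2 * τ) : ℝ) : ℂ) ^ (-(1 / 2 : ℂ) + (s : ℂ) * Complex.I) =
      (T : ℂ) ^ (-(1 / 2 : ℂ) + (s : ℂ) * Complex.I) *
      ((((x - t) ^ 2 + Real.exp (2 * τ)) / T : ℝ) : ℂ) ^ (-(1 / 2 : ℂ) + (s : ℂ) * Complex.I) := by
    rw [← Complex.mul_cpow_ofReal_nonneg hT.le (by positivity), ← Complex.ofReal_mul, mul_div_cancel₀ _ hT.ne']
  simp only [BK2_f, h1]
  ring

theorem BK2_norm (r s v : ℝ) (hr : 0 < r) (hv : v ≠ 0) :
    r * ‖(((r * v) ^ 2 : ℝ) : ℂ) ^ (-(1 / 2 : ℂ) + (s : ℂ) * Complex.I)‖ = |v|⁻¹ := by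
  have hrv : r * v ≠ 0 := mul_ne_zero hr.ne' hv
  have hT : 0 < (r * v) ^ 2 := by positivity
  rw [Complex.norm_cpow_eq_rpow_re_of_pos hT]
  have h1 : (-(1 / 2 : ℂ) + (s : ℂ) * Complex.I).re = -(1 / 2) := by
    simp
  rw [h1, Real.rpow_neg hT.le, ← Real.sqrt_eq_rpow, Real.sqrt_sq_eq_abs, abs_mul, abs_of_pos hr, mul_inv,
    ← mul_assoc, mul_inv_cancel₀ hr.ne', one_mul]

/-- the phase `Q^(-1/2+is)` -/
theorem BK2_phase {r s : ℕ → ℝ} {σ v : ℝ} (hr : Tendsto r atTop atTop) (hs : Tendsto (fun n => s n - r n) atTop (𝓝 σ))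
    (hv : v ≠ 0) (x e : ℝ) (he : 0 < e) :
    Tendsto (fun n => ((((x - r n * v) ^ 2 + e) / (r n * v) ^ 2 : ℝ) : ℂ) ^ (-(1 / 2 : ℂ) + (s n : ℂ) * Complex.I))
      atTop (𝓝 (Complex.exp (-(((2 / v) * x : ℝ) : ℂ) * Complex.I))) := by
  have hrpos : ∀ᶠ n in atTop, 0 < r n := hr.eventually_gt_atTop 0
  have hinv : Tendsto (fun n => (r n)⁻¹) atTop (𝓝 0) := tendsto_inv_atTop_zero.comp hr
  have hsr : Tendsto (fun n => s n * (r n)⁻¹) atTop (𝓝 1) := by
    have h1 : Tendsto (fun n => (s n - r n) * (r n)⁻¹ + 1) atTop (𝓝 (σ * 0 + 1)) :=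
      (hs.mul hinv).add tendsto_const_nhds
    rw [mul_zero, zero_add] at h1
    refine h1.congr' ?_
    filter_upwards [hrpos] with n hn
    field_simp
    ring
  set Q : ℕ → ℝ := fun n => ((x - r n * v) ^ 2 + e) / (r n * v) ^ 2 with hQdef
  have hQ1 : ∀ᶠ n in atTop, Q n - 1 = (r n)⁻¹ * (-2 * x / v + (x ^ 2 + e) / v ^ 2 * (r n)⁻¹) := by
    filter_upwards [hrpos] with n hn
    simp only [hQdef]
    field_simp
    ring
  have hlim0 : Tendsto (fun n => -2 * x / v + (x ^ 2 + e) / v ^ 2 * (r n)⁻¹) atTop (𝓝 (-2 * x / v)) := by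
    have h1 : Tendsto (fun n => -2 * x / v + (x ^ 2 + e) / v ^ 2 * (r n)⁻¹) atTop
        (𝓝 (-2 * x / v + (x ^ 2 + e) / v ^ 2 * 0)) := tendsto_const_nhds.add (tendsto_const_nhds.mul hinv)
    rwa [mul_zero, add_zero] at h1
  have hQm : Tendsto (fun n => Q n - 1) atTop (𝓝 0) := by
    have h1 := hinv.mul hlim0
    rw [zero_mul] at h1
    exact h1.congr' (hQ1.mono fun n hn => hn.symm)
  have hQ : Tendsto Q atTop (𝓝 1) := by
    have h1 := hQm.add_const 1
    rw [zero_add] at h1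
    refine h1.congr fun n => ?_
    ring
  have hsQ : Tendsto (fun n => s n * (Q n - 1)) atTop (𝓝 (-2 * x / v)) := by
    have h1 := hsr.mul hlim0
    rw [one_mul] at h1
    refine h1.congr' ?_
    filter_upwards [hQ1] with n hn
    rw [hn]
    ring
  have hspos : ∀ᶠ n in atTop, 0 < s n := by
    have h1 : ∀ᶠ n in atTop, 0 < s n * (r n)⁻¹ := hsr.eventually (lt_mem_nhds one_pos)
    filter_upwards [h1, hrpos] with n h2 h3
    exact pos_of_mul_pos_left h2 (inv_pos.mpr h3).le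
  have hQpos : ∀ᶠ n in atTop, 0 < Q n := hQ.eventually (lt_mem_nhds one_pos)
  have hslog : Tendsto (fun n => s n * Real.log (Q n)) atTop (𝓝 (-2 * x / v)) := by
    have hlow : Tendsto (fun n => s n * (Q n - 1) * (Q n)⁻¹) atTop (𝓝 (-2 * x / v)) := by
      have h1 := hsQ.mul (hQ.inv₀ one_ne_zero)
      rwa [inv_one, mul_one] at h1
    refine tendsto_of_tendsto_of_tendsto_of_le_of_le' hlow hsQ ?_ ?_
    · filter_upwards [hspos, hQpos] with n h1 h2
      have h3 := Real.one_sub_inv_le_log_of_pos h2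
      have h4 : s n * (Q n - 1) * (Q n)⁻¹ = s n * (1 - (Q n)⁻¹) := by
        field_simp
      rw [h4]
      exact mul_le_mul_of_nonneg_left h3 h1.le
    · filter_upwards [hspos, hQpos] with n h1 h2
      exact mul_le_mul_of_nonneg_left (Real.log_le_sub_one_of_pos h2) h1.le
  have hlog : Tendsto (fun n => Real.log (Q n)) atTop (𝓝 0) := by
    have h1 := (Real.continuousAt_log one_ne_zero).tendsto.comp hQ
    rwa [Real.log_one] at h1
  have hexp : Tendsto (fun n => ((Real.log (Q n) : ℝ) : ℂ) * (-(1 / 2 : ℂ)) + ((s n * Real.log (Q n) : ℝ) : ℂ) * Complex.I)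
      atTop (𝓝 (-(((2 / v) * x : ℝ) : ℂ) * Complex.I)) := by
    have h1 : Tendsto (fun n => ((Real.log (Q n) : ℝ) : ℂ)) atTop (𝓝 ((0 : ℝ) : ℂ)) :=
      (Complex.continuous_ofReal.tendsto 0).comp hlog
    have h2 : Tendsto (fun n => ((s n * Real.log (Q n) : ℝ) : ℂ)) atTop (𝓝 ((-2 * x / v : ℝ) : ℂ)) :=
      (Complex.continuous_ofReal.tendsto _).comp hslog
    have h3 := (h1.mul_const (-(1 / 2 : ℂ))).add (h2.mul_const Complex.I)
    have h4 : ((0 : ℝ) : ℂ) * (-(1 / 2 : ℂ)) + ((-2 * x / v : ℝ) : ℂ) * Complex.I =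
        -(((2 / v) * x : ℝ) : ℂ) * Complex.I := by
      push_cast
      ring
    rwa [h4] at h3
  have hfin := (Complex.continuous_exp.tendsto _).comp hexp
  refine hfin.congr' ?_
  filter_upwards [hQpos] with n hn
  have h1 : ((Q n : ℝ) : ℂ) ≠ 0 := Complex.ofReal_ne_zero.mpr hn.ne'
  simp only [Function.comp_apply]
  rw [Complex.cpow_def_of_ne_zero h1, ← Complex.ofReal_log hn.le]
  congr 1
  push_cast
  ring

theorem BK2_bound {C : ℝ → ℝ → ℂ} (hC : CB C) {M : ℝ} (hM : ∀ x τ, ‖C x τ‖ ≤ M) {r s v : ℝ} (hr : 0 < r)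
    (hrv : 1 ≤ r * |v|) (τ x : ℝ) : ‖BK2_f C r s (r * v) ((r * v) ^ 2) τ x‖ ≤
      (Icc (-(1 / 4)) (1 / 4 : ℝ)).indicator (fun _ => 2 * M) x := by
  by_cases h0 : C x τ = 0
  · have hM0 : 0 ≤ M := (norm_nonneg _).trans (hM 0 0)
    simp only [BK2_f, h0, zero_mul, norm_zero]
    exact Set.indicator_nonneg (fun _ _ => by positivity) x
  · obtain ⟨hx, hτ⟩ := hC.2 x τ h0
    have hxm : x ∈ Icc (-(1 / 4)) (1 / 4 : ℝ) := abs_le.mp hx
    rw [Set.indicator_of_mem hxm]
    have hv : v ≠ 0 := by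
      intro h
      rw [h, abs_zero, mul_zero] at hrv
      linarith
    have hrv0 : r * v ≠ 0 := mul_ne_zero hr.ne' hv
    have hT : 0 < (r * v) ^ 2 := by positivity
    have hQ : 1 / 4 ≤ ((x - r * v) ^ 2 + Real.exp (2 * τ)) / (r * v) ^ 2 := by
      rw [le_div_iff₀ hT]
      have h1 : |r * v| = r * |v| := by rw [abs_mul, abs_of_pos hr]
      have h2 : |r * v| ≤ 2 * |x - r * v| := by
        have h3 : |r * v| ≤ |x| + |x - r * v| := by
          calc |r * v| = |x - (x - r * v)| := by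
                congr 1
                ring
            _ ≤ |x| + |x - r * v| := abs_sub _ _
        linarith
      have h3 : (r * v) ^ 2 ≤ 4 * (x - r * v) ^ 2 := by
        rw [← sq_abs (r * v), ← sq_abs (x - r * v)]
        nlinarith [abs_nonneg (r * v), abs_nonneg (x - r * v)]
      have h4 := Real.exp_pos (2 * τ)
      linarith
    have hQ0 : 0 < ((x - r * v) ^ 2 + Real.exp (2 * τ)) / (r * v) ^ 2 := by linarith
    have h1 : (-(1 / 2 : ℂ) + (s : ℂ) * Complex.I).re = -(1 / 2) := by simp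
    have h2 : ‖((((x - r * v) ^ 2 + Real.exp (2 * τ)) / (r * v) ^ 2 : ℝ) : ℂ) ^ (-(1 / 2 : ℂ) + (s : ℂ) * Complex.I)‖ ≤ 2 := by
      rw [Complex.norm_cpow_eq_rpow_re_of_pos hQ0, h1, Real.rpow_neg hQ0.le, ← Real.sqrt_eq_rpow]
      have h3 : 1 / 2 ≤ √(((x - r * v) ^ 2 + Real.exp (2 * τ)) / (r * v) ^ 2) := by
        apply Real.le_sqrt_of_sq_le
        linarith
      calc (√(((x - r * v) ^ 2 + Real.exp (2 * τ)) / (r * v) ^ 2))⁻¹ ≤ (1 / 2 : ℝ)⁻¹ :=
            inv_anti₀ (by norm_num) h3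
        _ = 2 := by norm_num
    unfold BK2_f
    rw [norm_mul, norm_mul, Complex.norm_exp_ofReal_mul_I, mul_one]
    have h3 := hM x τ
    calc ‖C x τ‖ * _ ≤ M * 2 := mul_le_mul h3 h2 (norm_nonneg _) ((norm_nonneg _).trans h3)
      _ = 2 * M := by ring

theorem BK2_cont {C : ℝ → ℝ → ℂ} (hC : CB C) (r s t : ℝ) {T : ℝ} (hT : 0 < T) :
    Continuous (fun p : ℝ × ℝ => BK2_f C r s t T p.1 p.2) := by
  have h1 : Continuous (fun p : ℝ × ℝ => C p.2 p.1) :=
    hC.1.continuous.comp (continuous_snd.prodMk continuous_fst)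
  have h2 : Continuous (fun p : ℝ × ℝ => Complex.exp ((((r - s) * p.1 : ℝ) : ℂ) * Complex.I)) := by
    apply Complex.continuous_exp.comp
    fun_prop
  have h3 : Continuous (fun p : ℝ × ℝ =>
      ((((p.2 - t) ^ 2 + Real.exp (2 * p.1)) / T : ℝ) : ℂ) ^ (-(1 / 2 : ℂ) + (s : ℂ) * Complex.I)) := by
    apply Continuous.cpow _ continuous_const
    · intro p
      rw [Complex.ofReal_mem_slitPlane]
      positivity
    · fun_prop
  exact (h1.mul h2).mul h3

theorem BK2_M {C : ℝ → ℝ → ℂ} (hC : CB C) : ∃ M : ℝ, ∀ x τ, ‖C x τ‖ ≤ M := by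
  have h1 : HasCompactSupport (fun p : ℝ × ℝ => C p.1 p.2) := by
    apply HasCompactSupport.intro ((isCompact_Icc (a := -(1 / 4 : ℝ)) (b := 1 / 4)).prod
      (isCompact_Icc (a := -(1 / 4 : ℝ)) (b := 1 / 4)))
    rintro ⟨x, τ⟩ hx
    by_contra h
    obtain ⟨h2, h3⟩ := hC.2 x τ h
    exact hx ⟨abs_le.mp h2, abs_le.mp h3⟩
  obtain ⟨M, hM⟩ := hC.1.continuous.bounded_above_of_compact_support h1
  exact ⟨M, fun x τ => hM (x, τ)⟩

theorem BK2 : BK2_stmt := by
  intro C hC r s σ v hr hs hv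
  obtain ⟨M, hM⟩ := BK2_M hC
  have hM0 : 0 ≤ M := (norm_nonneg _).trans (hM 0 0)
  have hrpos : ∀ᶠ n in atTop, 0 < r n := hr.eventually_gt_atTop 0
  have hrv : ∀ᶠ n in atTop, 1 ≤ r n * |v| := by
    have h1 : Tendsto (fun n => r n * |v|) atTop atTop := hr.atTop_mul_const (abs_pos.mpr hv)
    exact h1.eventually_ge_atTop 1
  have hT : ∀ n, 0 < r n → 0 < (r n * v) ^ 2 := by
    intro n hn
    have : r n * v ≠ 0 := mul_ne_zero hn.ne' hv
    positivity
  have hind : ∀ c : ℝ, Integrable ((Icc (-(1 / 4)) (1 / 4 : ℝ)).indicator (fun _ => c)) := by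
    intro c
    rw [integrable_indicator_iff measurableSet_Icc]
    exact integrableOn_const (by simp)
  have hindint : ∫ x : ℝ, (Icc (-(1 / 4)) (1 / 4 : ℝ)).indicator (fun _ => 2 * M) x = M := by
    rw [integral_indicator measurableSet_Icc, setIntegral_const]
    simp
    norm_num
    ring
  have hlimpt : ∀ τ x : ℝ, Tendsto (fun n => BK2_f C (r n) (s n) (r n * v) ((r n * v) ^ 2) τ x) atTop
      (𝓝 (C x τ * Complex.exp (-((((2 / v) * x + σ * τ : ℝ)) : ℂ) * Complex.I))) := by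
    intro τ x
    have h1 := BK2_phase hr hs hv x (Real.exp (2 * τ)) (Real.exp_pos _)
    have h2 : Tendsto (fun n => Complex.exp ((((r n - s n) * τ : ℝ) : ℂ) * Complex.I)) atTop
        (𝓝 (Complex.exp (-(((σ * τ : ℝ)) : ℂ) * Complex.I))) := by
      apply (Complex.continuous_exp.tendsto _).comp
      apply Tendsto.mul_const
      have h3 : Tendsto (fun n => (r n - s n) * τ) atTop (𝓝 (-(σ * τ))) := by
        have h4 := (hs.neg).mul_const τ
        rw [neg_mul] at h4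
        refine h4.congr fun n => ?_
        ring
      have h5 := (Complex.continuous_ofReal.tendsto _).comp h3
      rw [Complex.ofReal_neg] at h5
      exact h5
    have h3 := (h2.const_mul (C x τ)).mul h1
    have h4 : C x τ * Complex.exp (-(((σ * τ : ℝ)) : ℂ) * Complex.I) * Complex.exp (-(((2 / v) * x : ℝ) : ℂ) * Complex.I) =
        C x τ * Complex.exp (-((((2 / v) * x + σ * τ : ℝ)) : ℂ) * Complex.I) := by
      rw [mul_assoc, ← Complex.exp_add]
      congr 2
      push_cast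
      ring
    rw [h4] at h3
    exact h3
  have hinner : ∀ τ : ℝ, Tendsto (fun n => ∫ x : ℝ, BK2_f C (r n) (s n) (r n * v) ((r n * v) ^ 2) τ x) atTop
      (𝓝 (∫ x : ℝ, C x τ * Complex.exp (-((((2 / v) * x + σ * τ : ℝ)) : ℂ) * Complex.I))) := by
    intro τ
    apply tendsto_integral_filter_of_dominated_convergence _ _ _ (hind (2 * M))
    · exact Eventually.of_forall fun x => hlimpt τ x
    · filter_upwards [hrpos] with n hn
      exact ((BK2_cont hC (r n) (s n) (r n * v) (hT n hn)).comp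
        (continuous_const.prodMk continuous_id)).aestronglyMeasurable
    · filter_upwards [hrpos, hrv] with n hn hn'
      exact Eventually.of_forall fun x => BK2_bound hC hM hn hn' τ x
  have houter : Tendsto (fun n => ∫ τ : ℝ, ∫ x : ℝ, BK2_f C (r n) (s n) (r n * v) ((r n * v) ^ 2) τ x) atTop
      (𝓝 (bF C (2 / v) σ)) := by
    apply tendsto_integral_filter_of_dominated_convergence _ _ _ (hind M)
    · exact Eventually.of_forall fun τ => hinner τ
    · filter_upwards [hrpos] with n hn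
      exact (StronglyMeasurable.integral_prod_right
        (BK2_cont hC (r n) (s n) (r n * v) (hT n hn)).stronglyMeasurable).aestronglyMeasurable
    · filter_upwards [hrpos, hrv] with n hn hn'
      refine Eventually.of_forall fun τ => ?_
      by_cases hτ : τ ∈ Icc (-(1 / 4)) (1 / 4 : ℝ)
      · rw [Set.indicator_of_mem hτ]
        calc ‖∫ x : ℝ, BK2_f C (r n) (s n) (r n * v) ((r n * v) ^ 2) τ x‖
            ≤ ∫ x : ℝ, (Icc (-(1 / 4)) (1 / 4 : ℝ)).indicator (fun _ => 2 * M) x :=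
              norm_integral_le_of_norm_le (hind (2 * M))
                (Eventually.of_forall fun x => BK2_bound hC hM hn hn' τ x)
          _ = M := hindint
      · rw [Set.indicator_of_notMem hτ]
        have h1 : ∀ x, BK2_f C (r n) (s n) (r n * v) ((r n * v) ^ 2) τ x = 0 := by
          intro x
          have h2 : C x τ = 0 := by
            by_contra h3
            exact hτ (abs_le.mp (hC.2 x τ h3).2)
          simp only [BK2_f, h2, zero_mul]
        simp only [h1, integral_zero, norm_zero]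
        exact le_rfl
  have hfin := houter.norm.const_mul (|v|⁻¹)
  refine hfin.congr' ?_
  filter_upwards [hrpos] with n hn
  rw [BK2_factor C (r n) (s n) (r n * v) ((r n * v) ^ 2) (hT n hn), norm_mul, ← mul_assoc, BK2_norm (r n) (s n) v hn hv]

end Pool.Agent.RS
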