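import Pool.Agent.helper29.RS.SpecK

/-!
# MP_07c750: rare scars, row BK3 (the limit of `r κ(s; r)`)
-/

set_option autoImplicit false

open scoped MatrixGroups ContDiff Topology UpperHalfPlane ComplexConjugate
open UpperHalfPlane MeasureTheory Filter Set

namespace Pool.Agent.RS

/-- the integrand of `bI` is continuous in all variables -/
theorem BK3_cont {C : ℝ → ℝ → ℂ} (hC : CB C) (r s : ℝ) : Continuous (fun p : (ℝ × ℝ) × ℝ =>
    C p.2 p.1.2 * Complex.exp ((((r - s) * p.1.2 : ℝ) : ℂ) * Complex.I) *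
    ((((p.2 - p.1.1) ^ 2 + Real.exp (2 * p.1.2) : ℝ)) : ℂ) ^ (-(1 / 2 : ℂ) + (s : ℂ) * Complex.I)) := by
  have h1 : Continuous (fun p : (ℝ × ℝ) × ℝ => C p.2 p.1.2) :=
    hC.1.continuous.comp (continuous_snd.prodMk (continuous_snd.comp continuous_fst))
  have h2 : Continuous (fun p : (ℝ × ℝ) × ℝ => Complex.exp ((((r - s) * p.1.2 : ℝ) : ℂ) * Complex.I)) := by
    apply Complex.continuous_exp.comp
    fun_prop
  have h3 : Continuous (fun p : (ℝ × ℝ) × ℝ =>
      ((((p.2 - p.1.1) ^ 2 + Real.exp (2 * p.1.2) : ℝ)) : ℂ) ^ (-(1 / 2 : ℂ) + (s : ℂ) * Complex.I)) := by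
    apply Continuous.cpow _ continuous_const
    · intro p
      rw [Complex.ofReal_mem_slitPlane]
      positivity
    · fun_prop
  exact (h1.mul h2).mul h3

theorem BK3_meas {C : ℝ → ℝ → ℂ} (hC : CB C) (r s : ℝ) : StronglyMeasurable (bI C r s) := by
  have h1 : StronglyMeasurable (fun p : ℝ × ℝ => ∫ x : ℝ, C x p.2 * Complex.exp ((((r - s) * p.2 : ℝ) : ℂ) * Complex.I) *
    ((((x - p.1) ^ 2 + Real.exp (2 * p.2) : ℝ)) : ℂ) ^ (-(1 / 2 : ℂ) + (s : ℂ) * Complex.I)) :=
    StronglyMeasurable.integral_prod_right (BK3_cont hC r s).stronglyMeasurable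
  exact StronglyMeasurable.integral_prod_right h1

/-- the pointwise bound -/
theorem BK3_bd {C : ℝ → ℝ → ℂ} {K : ℝ}
    (h : ∀ r s t : ℝ, 1 ≤ r → |s - r| ≤ r / 100 → max r |t| * ‖bI C r s t‖ ≤ K) {r s : ℝ} (hr : 1 ≤ r)
    (hs : |s - r| ≤ r / 100) (v : ℝ) : (r * ‖bI C r s (r * v)‖) ^ 2 ≤ 2 * K ^ 2 * (1 + v ^ 2)⁻¹ := by
  have h1 := h r s (r * v) hr hs
  have hr0 : 0 < r := by linarith
  have h2 : max r |r * v| = r * max 1 |v| := by
    rw [abs_mul, abs_of_pos hr0]
    rcases le_total 1 |v| with h3 | h3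
    · rw [max_eq_right h3, max_eq_right (le_mul_of_one_le_right hr0.le h3)]
    · rw [max_eq_left h3, max_eq_left (mul_le_of_le_one_right hr0.le h3), mul_one]
  rw [h2] at h1
  set b := ‖bI C r s (r * v)‖ with hb
  have hb0 : 0 ≤ b := norm_nonneg _
  have hm0 : 0 < max 1 |v| := lt_of_lt_of_le one_pos (le_max_left _ _)
  have h3 : (max 1 |v| * (r * b)) ^ 2 ≤ K ^ 2 := by
    apply pow_le_pow_left₀ (by positivity)
    linarith [h1]
  have h4 : (1 + v ^ 2) / 2 ≤ (max 1 |v|) ^ 2 := by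
    rcases le_total 1 |v| with h5 | h5
    · rw [max_eq_right h5, sq_abs]
      have : 1 ≤ v ^ 2 := by
        rw [← sq_abs]
        exact one_le_pow₀ h5
      linarith
    · rw [max_eq_left h5]
      have : v ^ 2 ≤ 1 := by
        rw [← sq_abs]
        exact pow_le_one₀ (abs_nonneg _) h5
      linarith
  have hv : 0 < 1 + v ^ 2 := by positivity
  rw [mul_pow] at h3
  have h5 : (1 + v ^ 2) / 2 * (r * b) ^ 2 ≤ K ^ 2 :=
    (mul_le_mul_of_nonneg_right h4 (by positivity)).trans h3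
  rw [← div_eq_mul_inv, le_div_iff₀ hv]
  linarith

theorem BK3_scale {C : ℝ → ℝ → ℂ} {r s : ℝ} (hr : 0 < r) :
    r * bk C r s = (1 / Real.pi) * ∫ v : ℝ, (r * ‖bI C r s (r * v)‖) ^ 2 := by
  have h1 := MeasureTheory.Measure.integral_comp_mul_left (fun t => ‖bI C r s t‖ ^ 2) r
  rw [abs_of_pos (inv_pos.mpr hr), smul_eq_mul] at h1
  have h2 : ∫ v : ℝ, (r * ‖bI C r s (r * v)‖) ^ 2 = r ^ 2 * ∫ v : ℝ, ‖bI C r s (r * v)‖ ^ 2 := by
    rw [← integral_const_mul]
    apply integral_congr_ae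
    refine Eventually.of_forall fun v => ?_
    simp only [mul_pow]
  rw [h2, h1, bk]
  field_simp

theorem BK3 (hBK1 : BK1_stmt) (hBK2 : BK2_stmt) : BK3_stmt := by
  intro C hC
  obtain ⟨K, hK, hb⟩ := hBK1 C hC
  have hInt : Integrable (fun v : ℝ => 2 * K ^ 2 * (1 + v ^ 2)⁻¹) := integrable_inv_one_add_sq.const_mul _
  have hmeas : ∀ r s : ℝ, AEStronglyMeasurable (fun v : ℝ => (r * ‖bI C r s (r * v)‖) ^ 2) volume := by
    intro r s
    have h1 : StronglyMeasurable (fun v : ℝ => bI C r s (r * v)) :=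
      (BK3_meas hC r s).comp_measurable (measurable_const_mul r)
    exact ((h1.norm.const_mul r).pow 2).aestronglyMeasurable
  have hint : ∀ r s : ℝ, 1 ≤ r → |s - r| ≤ r / 100 → Integrable (fun v : ℝ => (r * ‖bI C r s (r * v)‖) ^ 2) := by
    intro r s hr hs
    refine hInt.mono' (hmeas r s) (Eventually.of_forall fun v => ?_)
    rw [Real.norm_eq_abs, abs_of_nonneg (by positivity)]
    exact BK3_bd hb hr hs v
  refine ⟨⟨2 * K ^ 2, by positivity, ?_⟩, ?_⟩
  · intro r s hr hs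
    have hr0 : 0 < r := by linarith
    constructor
    · have h1 := hint r s hr hs
      have h2 : Integrable (fun v : ℝ => ‖bI C r s (r * v)‖ ^ 2) := by
        have h3 := h1.const_mul ((r ^ 2)⁻¹)
        refine h3.congr (Eventually.of_forall fun v => ?_)
        simp only [mul_pow]
        rw [← mul_assoc, inv_mul_cancel₀ (by positivity), one_mul]
      exact (integrable_comp_mul_left_iff (fun t => ‖bI C r s t‖ ^ 2) hr0.ne').mp h2
    · rw [BK3_scale hr0]
      have h1 : ∫ v : ℝ, (r * ‖bI C r s (r * v)‖) ^ 2 ≤ ∫ v : ℝ, 2 * K ^ 2 * (1 + v ^ 2)⁻¹ :=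
        integral_mono (hint r s hr hs) hInt (fun v => BK3_bd hb hr hs v)
      rw [integral_const_mul, integral_univ_inv_one_add_sq] at h1
      have h2 := mul_le_mul_of_nonneg_left h1 (by positivity : 0 ≤ 1 / Real.pi)
      have h3 : 1 / Real.pi * (2 * K ^ 2 * Real.pi) = 2 * K ^ 2 := by
        have := Real.pi_ne_zero
        field_simp
      linarith
  · intro r s σ hr hs
    have hev : ∀ᶠ n in atTop, 1 ≤ r n ∧ |s n - r n| ≤ r n / 100 := by
      have e1 : ∀ᶠ n in atTop, 1 ≤ r n := hr.eventually_ge_atTop 1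
      have e2 : ∀ᶠ n in atTop, |s n - r n| < |σ| + 1 :=
        (hs.abs).eventually (gt_mem_nhds (by linarith))
      have e3 : ∀ᶠ n in atTop, 100 * (|σ| + 1) ≤ r n := hr.eventually_ge_atTop _
      filter_upwards [e1, e2, e3] with n h1 h2 h3
      exact ⟨h1, by linarith⟩
    have hlim : Tendsto (fun n => ∫ v : ℝ, (r n * ‖bI C (r n) (s n) (r n * v)‖) ^ 2) atTop
        (𝓝 (∫ v : ℝ, (v⁻¹) ^ 2 * ‖bF C (2 / v) σ‖ ^ 2)) := by
      apply tendsto_integral_filter_of_dominated_convergence (fun v : ℝ => 2 * K ^ 2 * (1 + v ^ 2)⁻¹)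
      · exact Eventually.of_forall fun n => hmeas (r n) (s n)
      · filter_upwards [hev] with n hn
        refine Eventually.of_forall fun v => ?_
        rw [Real.norm_eq_abs, abs_of_nonneg (by positivity)]
        exact BK3_bd hb hn.1 hn.2 v
      · exact hInt
      · have h0 : ∀ᵐ v : ℝ, v ≠ 0 := by
          rw [ae_iff]
          simp
        filter_upwards [h0] with v hv
        have h1 := (hBK2 C hC r s σ v hr hs hv).pow 2
        have h2 : (|v|⁻¹ * ‖bF C (2 / v) σ‖) ^ 2 = (v⁻¹) ^ 2 * ‖bF C (2 / v) σ‖ ^ 2 := by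
          rw [mul_pow, inv_pow, inv_pow, sq_abs]
        rw [← h2]
        exact h1
    have h1 := hlim.const_mul (1 / Real.pi)
    refine h1.congr' ?_
    filter_upwards [hev] with n hn
    exact (BK3_scale (by linarith [hn.1])).symm

end Pool.Agent.RS
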