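import Pool.Agent.helper29.RS.SpecK

/-!
# MP_07c750: rare scars, row BK4 (Plancherel)
-/

set_option autoImplicit false

open scoped MatrixGroups ContDiff Topology UpperHalfPlane ComplexConjugate
open UpperHalfPlane MeasureTheory Filter Set

namespace Pool.Agent.RS

theorem BK4_supp {w : ℝ} {a : ℝ → ℝ} (ha : SB w a) : HasCompactSupport a := by
  apply HasCompactSupport.intro (isCompact_Icc (a := -w) (b := w))
  intro x hx
  by_contra h
  exact hx (abs_le.mp (ha.2 x h))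

theorem BK4_even (b : ℝ → ℝ) (k : ℝ) : ‖hF b (-k)‖ = ‖hF b k‖ := by
  have h1 : hF b (-k) = conj (hF b k) := by
    unfold hF
    rw [← integral_conj]
    apply integral_congr_ae
    refine Eventually.of_forall fun τ => ?_
    simp only [map_mul, Complex.conj_ofReal, ← Complex.exp_conj, map_neg, Complex.conj_I]
    congr 2
    push_cast
    ring
  rw [h1]
  exact Complex.norm_conj _

open FourierTransform in
theorem BK4_fourier {b : ℝ → ℝ} (k : ℝ) :
    hF b k = 𝓕 (fun x : ℝ => ((b x : ℝ) : ℂ)) (k / (2 * Real.pi)) := by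
  rw [Real.fourier_real_eq_integral_exp_smul]
  unfold hF
  apply integral_congr_ae
  refine Eventually.of_forall fun τ => ?_
  simp only [smul_eq_mul]
  rw [mul_comm]
  congr 2
  have h1 : (-2 * Real.pi * τ * (k / (2 * Real.pi)) : ℝ) = -(k * τ) := by
    have := Real.pi_ne_zero
    field_simp
  rw [h1, Complex.ofReal_neg]

open FourierTransform in
theorem BK4_planch {w : ℝ} {b : ℝ → ℝ} (hb : SB w b) :
    ∫ k : ℝ, ‖hF b k‖ ^ 2 = 2 * Real.pi * ∫ x : ℝ, b x ^ 2 := by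
  have hs : HasCompactSupport (fun x : ℝ => ((b x : ℝ) : ℂ)) := by
    have h1 := BK4_supp hb
    exact h1.comp_left (g := fun y : ℝ => ((y : ℝ) : ℂ)) Complex.ofReal_zero
  have hd : ContDiff ℝ ∞ (fun x : ℝ => ((b x : ℝ) : ℂ)) := Complex.ofRealCLM.contDiff.comp hb.1
  have h1 := SchwartzMap.integral_norm_sq_fourier (hs.toSchwartzMap hd)
  have h2 : ∫ ξ : ℝ, ‖𝓕 (fun x : ℝ => ((b x : ℝ) : ℂ)) ξ‖ ^ 2 = ∫ x : ℝ, b x ^ 2 := by
    have h3 : ∫ x : ℝ, ‖(hs.toSchwartzMap hd) x‖ ^ 2 = ∫ x : ℝ, b x ^ 2 := by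
      apply integral_congr_ae
      refine Eventually.of_forall fun x => ?_
      have h4 : (hs.toSchwartzMap hd) x = ((b x : ℝ) : ℂ) := rfl
      simp only [h4, Complex.norm_real, Real.norm_eq_abs, sq_abs]
    rw [← h3, ← h1]
    apply integral_congr_ae
    refine Eventually.of_forall fun ξ => ?_
    have h5 : (𝓕 (hs.toSchwartzMap hd)) ξ = 𝓕 (fun x : ℝ => ((b x : ℝ) : ℂ)) ξ := by
      rw [SchwartzMap.fourier_coe]
      rfl
    simp only [h5]
  have h3 := MeasureTheory.Measure.integral_comp_div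
    (fun ξ : ℝ => ‖𝓕 (fun x : ℝ => ((b x : ℝ) : ℂ)) ξ‖ ^ 2) (2 * Real.pi)
  rw [h2, abs_of_pos Real.two_pi_pos, smul_eq_mul] at h3
  rw [← h3]
  apply integral_congr_ae
  refine Eventually.of_forall fun k => ?_
  simp only [BK4_fourier]

theorem BK4_sub {G : ℝ → ℝ} (hG : ∀ x, G (-x) = G x) :
    ∫ v : ℝ, (v⁻¹) ^ 2 * G (2 / v) = (1 / 2) * ∫ k : ℝ, G k := by
  have habs : ∀ x, G |x| = G x := by
    intro x
    rcases abs_choice x with h | h
    · rw [h]
    · rw [h, hG]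
  have h1 : ∫ v : ℝ, (v⁻¹) ^ 2 * G (2 / v) = ∫ v : ℝ, (fun y : ℝ => (y⁻¹) ^ 2 * G (2 / y)) |v| := by
    apply integral_congr_ae
    refine Eventually.of_forall fun v => ?_
    have h2 : G (2 / |v|) = G (2 / v) := by
      rw [← habs (2 / v), abs_div, abs_of_pos (by norm_num : (0 : ℝ) < 2)]
    simp only [h2, inv_pow, sq_abs]
  have h2 : ∫ k : ℝ, G k = 2 * ∫ k in Ioi (0 : ℝ), G k := by
    have h3 : ∫ k : ℝ, G k = ∫ k : ℝ, G |k| := by
      apply integral_congr_ae
      exact Eventually.of_forall fun k => (habs k).symm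
    rw [h3, integral_comp_abs]
  have h3 : ∫ v in Ioi (0 : ℝ), (v⁻¹) ^ 2 * G (2 / v) = ∫ y in Ioi (0 : ℝ), G (2 * y) := by
    rw [← MeasureTheory.integral_comp_rpow_Ioi (fun y => G (2 * y)) (p := -1) (by norm_num)]
    apply setIntegral_congr_fun measurableSet_Ioi
    intro v hv
    have hv0 : 0 < v := hv
    have h4 : v ^ (-1 - 1 : ℝ) = (v⁻¹) ^ 2 := by
      rw [show (-1 - 1 : ℝ) = -((2 : ℕ) : ℝ) by norm_num, Real.rpow_neg hv0.le, Real.rpow_natCast, inv_pow]
    simp only [h4, Real.rpow_neg_one, smul_eq_mul, abs_neg, abs_one, one_mul]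
    rfl
  have h4 : ∫ y in Ioi (0 : ℝ), G (2 * y) = (1 / 2) * ∫ y in Ioi (0 : ℝ), G y := by
    have h5 := MeasureTheory.integral_comp_mul_left_Ioi G 0 (by norm_num : (0 : ℝ) < 2)
    rw [mul_zero, smul_eq_mul] at h5
    rw [h5]
    norm_num
  have h5 := integral_comp_abs (f := fun y : ℝ => (y⁻¹) ^ 2 * G (2 / y))
  refine (h1.trans h5).trans ?_
  rw [h3, h4, h2]
  ring

theorem BK4_prod (α β : ℝ → ℝ) (k σ : ℝ) : bF (pr β α) k σ = hF β k * hF α σ := by
  unfold bF hF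
  rw [← integral_const_mul]
  apply integral_congr_ae
  refine Eventually.of_forall fun τ => ?_
  simp only
  rw [← integral_mul_const]
  apply integral_congr_ae
  refine Eventually.of_forall fun x => ?_
  have h1 : Complex.exp (-(((k * x + σ * τ : ℝ)) : ℂ) * Complex.I) =
      Complex.exp (-((k * x : ℝ) : ℂ) * Complex.I) * Complex.exp (-((σ * τ : ℝ) : ℂ) * Complex.I) := by
    rw [← Complex.exp_add]
    congr 1
    push_cast
    ring
  simp only [pr, h1]
  push_cast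
  ring

theorem BK4 : BK4_stmt := by
  intro α β hα hβ σ
  have h1 : ∫ v : ℝ, (v⁻¹) ^ 2 * ‖bF (pr β α) (2 / v) σ‖ ^ 2 =
      ‖hF α σ‖ ^ 2 * ∫ v : ℝ, (v⁻¹) ^ 2 * ‖hF β (2 / v)‖ ^ 2 := by
    rw [← integral_const_mul]
    apply integral_congr_ae
    refine Eventually.of_forall fun v => ?_
    simp only [BK4_prod, norm_mul]
    ring
  rw [h1, BK4_sub (G := fun k => ‖hF β k‖ ^ 2) (fun x => by simp only [BK4_even]), BK4_planch hβ]
  have := Real.pi_ne_zero
  field_simp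

end Pool.Agent.RS
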