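import Pool.Agent.helper29.RS.SpecK

/-!
# MP_07c750: rare scars, row BK5 (uniform limit of `r κ(s; r)`)
-/

set_option autoImplicit false

open scoped MatrixGroups ContDiff Topology UpperHalfPlane ComplexConjugate
open UpperHalfPlane MeasureTheory Filter Set

namespace Pool.Agent.RS

theorem BK5_supp {w : ℝ} {a : ℝ → ℝ} (ha : SB w a) : HasCompactSupport a := by
  apply HasCompactSupport.intro (isCompact_Icc (a := -w) (b := w))
  intro x hx
  by_contra h
  exact hx (abs_le.mp (ha.2 x h))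

theorem BK5_CB {α β : ℝ → ℝ} (hα : SB (1 / 4) α) (hβ : SB (1 / 4) β) : CB (pr β α) := by
  constructor
  · have h1 : ContDiff ℝ ∞ (fun p : ℝ × ℝ => β p.1 * α p.2) :=
      (hβ.1.comp contDiff_fst).mul (hα.1.comp contDiff_snd)
    exact Complex.ofRealCLM.contDiff.comp h1
  · intro x τ h
    have h1 : β x * α τ ≠ 0 := by
      intro h2
      apply h
      simp only [pr, h2, Complex.ofReal_zero]
    exact ⟨hβ.2 x (left_ne_zero_of_mul h1), hα.2 τ (right_ne_zero_of_mul h1)⟩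

theorem BK5_hF {w : ℝ} {a : ℝ → ℝ} (ha : SB w a) : Continuous (hF a) := by
  have hint : Integrable a := ha.1.continuous.integrable_of_hasCompactSupport (BK5_supp ha)
  apply MeasureTheory.continuous_of_dominated (bound := fun τ => ‖a τ‖)
  · intro σ
    apply Continuous.aestronglyMeasurable
    exact (Complex.continuous_ofReal.comp ha.1.continuous).mul
      (Complex.continuous_exp.comp (by fun_prop))
  · intro σ
    refine Eventually.of_forall fun τ => ?_
    have h1 : ‖Complex.exp (-((σ * τ : ℝ) : ℂ) * Complex.I)‖ = 1 := by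
      rw [← Complex.ofReal_neg]
      exact Complex.norm_exp_ofReal_mul_I _
    rw [norm_mul, h1, mul_one, Complex.norm_real]
  · exact hint.norm
  · refine Eventually.of_forall fun τ => ?_
    exact continuous_const.mul (Complex.continuous_exp.comp (by fun_prop))

theorem BK5 (hBK3 : BK3_stmt) (hBK4 : BK4_stmt) : BK5_stmt := by
  intro α β hα hβ η R0 hη
  by_contra hcon
  push Not at hcon
  have h1 : ∀ n : ℕ, ∃ r s : ℝ, (n : ℝ) + 1 ≤ r ∧ |s - r| ≤ R0 ∧
      η < |r * bk (pr β α) r s - ‖hF α (s - r)‖ ^ 2 * ∫ x : ℝ, β x ^ 2| := by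
    intro n
    obtain ⟨r, s, h2, h3, h4⟩ := hcon ((n : ℝ) + 1) (by
      have : (0 : ℝ) ≤ n := Nat.cast_nonneg n
      linarith)
    exact ⟨r, s, h2, h3, h4⟩
  choose r s hr hs hbad using h1
  have hmem : ∀ n, s n - r n ∈ Icc (-R0) R0 := fun n => abs_le.mp (hs n)
  obtain ⟨σ, -, φ, hφ, hlim⟩ := isCompact_Icc.tendsto_subseq hmem
  have hrtop : Tendsto r atTop atTop := by
    apply tendsto_atTop_mono hr
    exact tendsto_natCast_atTop_atTop.atTop_add tendsto_const_nhds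
  obtain ⟨-, h3⟩ := hBK3 (pr β α) (BK5_CB hα hβ)
  have h4 := h3 (r ∘ φ) (s ∘ φ) σ (hrtop.comp hφ.tendsto_atTop) hlim
  rw [hBK4 α β hα hβ σ] at h4
  have h5 : Tendsto (fun n => ‖hF α ((s ∘ φ) n - (r ∘ φ) n)‖ ^ 2 * ∫ x : ℝ, β x ^ 2) atTop
      (𝓝 (‖hF α σ‖ ^ 2 * ∫ x : ℝ, β x ^ 2)) := by
    have h6 : Tendsto (fun n => hF α ((s ∘ φ) n - (r ∘ φ) n)) atTop (𝓝 (hF α σ)) :=
      ((BK5_hF hα).tendsto σ).comp hlim
    exact (h6.norm.pow 2).mul tendsto_const_nhds
  have h6 := (h4.sub h5).abs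
  rw [sub_self, abs_zero] at h6
  have h7 := (h6.eventually (gt_mem_nhds hη)).exists
  obtain ⟨n, hn⟩ := h7
  have h8 := hbad (φ n)
  have h9 : |(r ∘ φ) n * bk (pr β α) ((r ∘ φ) n) ((s ∘ φ) n) -
      ‖hF α ((s ∘ φ) n - (r ∘ φ) n)‖ ^ 2 * ∫ x : ℝ, β x ^ 2| < η := hn
  simp only [Function.comp_apply] at h9
  linarith

end Pool.Agent.RS
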