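import Pool.Agent.helper65.RS.BKG

/-!
# MP_07c750: rare scars, row BKA (the boundary integral for `|t| ≥ 4`)
-/

set_option autoImplicit false

open scoped MatrixGroups ContDiff Topology UpperHalfPlane ComplexConjugate
open UpperHalfPlane MeasureTheory Filter Set

namespace Pool.Agent.RS

theorem BKA_out {F : ℝ → ℂ} {B : ℝ} (h : ∀ τ, ‖F τ‖ ≤ (Icc (-(1 / 4)) (1 / 4 : ℝ)).indicator (fun _ => B) τ) :
    ‖∫ τ : ℝ, F τ‖ ≤ B / 2 := by
  have hind : Integrable ((Icc (-(1 / 4)) (1 / 4 : ℝ)).indicator (fun _ => B)) := by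
    rw [integrable_indicator_iff measurableSet_Icc]
    exact integrableOn_const (by simp)
  have h1 := norm_integral_le_of_norm_le hind (Eventually.of_forall h)
  rw [integral_indicator measurableSet_Icc, setIntegral_const] at h1
  have h2 : (volume.real (Icc (-(1 / 4)) (1 / 4 : ℝ))) • B = B / 2 := by
    rw [Real.volume_real_Icc, smul_eq_mul]
    norm_num
    ring
  rw [h2] at h1
  exact h1

theorem BKA_exp {τ : ℝ} (hτ : τ ≤ 1 / 4) : Real.exp (2 * τ) ≤ 2 := by
  have h1 : Real.exp (2 * τ) ≤ Real.exp (1 / 2) := Real.exp_le_exp.mpr (by linarith)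
  have h2 : Real.exp (1 / 2) ^ 2 = Real.exp 1 := by
    rw [← Real.exp_nat_mul]
    norm_num
  have h3 := Real.exp_one_lt_d9
  have h4 : Real.exp (1 / 2) ≤ 2 := by
    by_contra h
    push Not at h
    nlinarith
  linarith

theorem BKA_deriv (t E : ℝ) : (deriv (fun x : ℝ => (x - t) ^ 2 + E) = fun x => 2 * (x - t)) ∧
    ∀ x, deriv (fun x : ℝ => 2 * (x - t)) x = 2 := by
  constructor
  · funext x
    have h1 : HasDerivAt (fun x : ℝ => (x - t)) 1 x := (hasDerivAt_id x).sub_const t
    have h2 := (h1.pow 2).add_const E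
    have h3 : HasDerivAt (fun x : ℝ => (x - t) ^ 2 + E) (2 * (x - t)) x := by
      simpa using h2
    exact h3.deriv
  · intro x
    have h1 : HasDerivAt (fun x : ℝ => (x - t)) 1 x := (hasDerivAt_id x).sub_const t
    have h2 := h1.const_mul 2
    rw [mul_one] at h2
    exact h2.deriv

theorem BKA_inner (hOIB : OIB_stmt) {C : ℝ → ℝ → ℂ} (hC : CB C) {M : ℝ}
    (hM0 : ∀ x τ, ‖C x τ‖ ≤ M) (hM1 : ∀ τ, ContDiff ℝ 1 (fun x => C x τ) ∧ ∀ x, ‖deriv (fun x => C x τ) x‖ ≤ M)
    {s t τ : ℝ} (hs : 0 < s) (ht : 4 ≤ |t|) (hτ : τ ≤ 1 / 4) :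
    ‖∫ x in (-(1 / 2) : ℝ)..(1 / 2), C x τ * (Complex.exp (((0 * x : ℝ) : ℂ) * Complex.I) *
      (((x - t) ^ 2 + Real.exp (2 * τ) : ℝ) : ℂ) ^ (-(1 / 2 : ℂ) + (s : ℂ) * Complex.I))‖ ≤ 22 * M / s := by
  have hE := BKA_exp hτ
  have hE0 := Real.exp_pos (2 * τ)
  have ht0 : 0 < |t| := by linarith
  have hM : 0 ≤ M := (norm_nonneg _).trans (hM0 0 0)
  obtain ⟨hd1, hd2⟩ := BKA_deriv t (Real.exp (2 * τ))
  have hxt : ∀ x ∈ Icc (-(1 / 2) : ℝ) (1 / 2), |t| - 1 / 2 ≤ |x - t| ∧ |x - t| ≤ |t| + 1 / 2 := by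
    intro x hx
    have hx' : |x| ≤ 1 / 2 := abs_le.mpr hx
    constructor
    · have h1 : |t| ≤ |x| + |x - t| := by
        calc |t| = |x - (x - t)| := by
              congr 1
              ring
          _ ≤ |x| + |x - t| := abs_sub _ _
      linarith
    · have h1 : |x - t| ≤ |x| + |t| := abs_sub _ _
      linarith
  have hzero : ∀ x : ℝ, 1 / 4 < |x| → C x τ = 0 := by
    intro x hx
    by_contra h
    have := (hC.2 x τ h).1
    linarith
  have key := BKG hOIB (fun x => C x τ) (fun x => (x - t) ^ 2 + Real.exp (2 * τ)) 0 s (|t| / 2) 1 (8 * s / |t| ^ 2)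
    (s / (2 * |t|)) M M (hM1 τ).1 (((contDiff_id.sub contDiff_const).pow 2).add contDiff_const)
    (fun x => by positivity) (hzero _ (by rw [abs_neg, abs_of_pos (by norm_num : (0 : ℝ) < 1 / 2)]; norm_num))
    (hzero _ (by rw [abs_of_pos (by norm_num : (0 : ℝ) < 1 / 2)]; norm_num)) (by positivity)
    (by
      intro x hx
      obtain ⟨h1, -⟩ := hxt x hx
      have h2 : |t| / 2 ≤ |x - t| := by linarith
      have h3 : (|t| / 2) ^ 2 ≤ (x - t) ^ 2 := by
        rw [← sq_abs (x - t)]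
        exact pow_le_pow_left₀ (by positivity) h2 2
      linarith)
    (by
      intro x hx
      obtain ⟨h1, -⟩ := hxt x hx
      rw [hd1, abs_mul, abs_of_pos (by norm_num : (0 : ℝ) < 2), one_mul]
      have h2 : 2 ≤ |x - t| := by linarith
      have h3 : 2 * |x - t| ≤ |x - t| ^ 2 := by nlinarith
      rw [sq_abs] at h3
      linarith)
    (by positivity)
    (by
      intro x hx
      obtain ⟨h1, h2⟩ := hxt x hx
      rw [hd1, zero_add, abs_mul, abs_of_pos hs, abs_div, abs_mul, abs_of_pos (by norm_num : (0 : ℝ) < 2)]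
      have hDpos : 0 < (x - t) ^ 2 + Real.exp (2 * τ) := by positivity
      rw [abs_of_pos hDpos]
      have h3 : 0 < |x - t| := by linarith
      have h4 : (x - t) ^ 2 + Real.exp (2 * τ) ≤ 4 * |t| * |x - t| := by
        rw [← sq_abs (x - t)]
        nlinarith
      have h5 : 1 / (2 * |t|) ≤ 2 * |x - t| / ((x - t) ^ 2 + Real.exp (2 * τ)) := by
        rw [div_le_div_iff₀ (by positivity) hDpos]
        linarith
      calc s / (2 * |t|) = s * (1 / (2 * |t|)) := by ring
        _ ≤ s * (2 * |x - t| / ((x - t) ^ 2 + Real.exp (2 * τ))) := mul_le_mul_of_nonneg_left h5 hs.le)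
    (by
      intro x hx
      obtain ⟨h1, h2⟩ := hxt x hx
      rw [hd1, hd2]
      have hDpos : 0 < (x - t) ^ 2 + Real.exp (2 * τ) := by positivity
      have hDt : |t| ^ 2 / 4 ≤ (x - t) ^ 2 + Real.exp (2 * τ) := by
        have h2 : |t| / 2 ≤ |x - t| := by linarith
        have h3 : (|t| / 2) ^ 2 ≤ (x - t) ^ 2 := by
          rw [← sq_abs (x - t)]
          exact pow_le_pow_left₀ (by positivity) h2 2
        have h4 : (|t| / 2) ^ 2 = |t| ^ 2 / 4 := by ring
        linarith
      set D := (x - t) ^ 2 + Real.exp (2 * τ) with hD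
      rw [abs_mul, abs_of_pos hs, abs_div, abs_of_pos (by positivity : 0 < D ^ 2)]
      have h3 : |2 * D - 2 * (x - t) * (2 * (x - t))| ≤ 2 * D := by
        rw [abs_le]
        constructor
        · nlinarith [sq_nonneg (x - t)]
        · nlinarith [sq_nonneg (x - t)]
      have h4 : |2 * D - 2 * (x - t) * (2 * (x - t))| / D ^ 2 ≤ 8 / |t| ^ 2 := by
        rw [div_le_div_iff₀ (by positivity) (by positivity)]
        have h5 : |2 * D - 2 * (x - t) * (2 * (x - t))| * |t| ^ 2 ≤ 2 * D * |t| ^ 2 :=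
          mul_le_mul_of_nonneg_right h3 (by positivity)
        have h6 : 2 * D * |t| ^ 2 ≤ 2 * D * (4 * D) := mul_le_mul_of_nonneg_left (by linarith) (by positivity)
        calc _ ≤ 2 * D * (4 * D) := h5.trans h6
          _ = 8 * D ^ 2 := by ring
      calc s * (|2 * D - 2 * (x - t) * (2 * (x - t))| / D ^ 2) ≤ s * (8 / |t| ^ 2) :=
            mul_le_mul_of_nonneg_left h4 hs.le
        _ = 8 * s / |t| ^ 2 := by ring)
    (fun x => hM0 x τ) (hM1 τ).2
  refine key.trans ?_
  have e1 : (M + M * 1 / 2) / (|t| / 2) / (s / (2 * |t|)) = 6 * M / s := by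
    field_simp
    ring
  have e2 : M / (|t| / 2) * (8 * s / |t| ^ 2) / (s / (2 * |t|)) ^ 2 = 64 * M / s / |t| := by
    field_simp
    ring
  rw [e1, e2]
  have h7 : 64 * M / s / |t| ≤ 16 * M / s := by
    rw [div_le_iff₀ ht0]
    have h8 : 0 ≤ 16 * M / s := by positivity
    have h9 : 64 * M / s = 16 * M / s * 4 := by ring
    rw [h9]
    exact mul_le_mul_of_nonneg_left ht h8
  have h10 : 22 * M / s = 6 * M / s + 16 * M / s := by ring
  linarith

theorem BKA (hOIB : OIB_stmt) : BKA_stmt := by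
  intro C hC
  obtain ⟨M, hM, hM0, hM1, -⟩ := BKG_M hC
  refine ⟨24 * M + 1, by positivity, ?_⟩
  intro r s t hr hs ht
  have ht0 : 0 < |t| := by linarith
  have hr0 : 0 < r := by linarith
  have hs1 : 99 / 100 * r ≤ s := by
    have := (abs_le.mp hs).1
    linarith
  have hs0 : 0 < s := by linarith
  -- the inner integral
  have hsupp : ∀ x τ : ℝ, C x τ ≠ 0 → |x| ≤ 1 / 4 ∧ |τ| ≤ 1 / 4 := hC.2
  let inn : ℝ → ℂ := fun τ => ∫ x : ℝ, C x τ * Complex.exp ((((r - s) * τ : ℝ) : ℂ) * Complex.I) *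
    ((((x - t) ^ 2 + Real.exp (2 * τ) : ℝ)) : ℂ) ^ (-(1 / 2 : ℂ) + (s : ℂ) * Complex.I)
  have hbI : bI C r s t = ∫ τ : ℝ, inn τ := rfl
  have hzero : ∀ τ : ℝ, 1 / 4 < |τ| → inn τ = 0 := by
    intro τ hτ
    have h1 : ∀ x : ℝ, C x τ = 0 := by
      intro x
      by_contra h
      have := (hsupp x τ h).2
      linarith
    simp only [inn, h1, zero_mul, integral_zero]
  have hB1 : ∀ τ, ‖inn τ‖ ≤ (Icc (-(1 / 4)) (1 / 4 : ℝ)).indicator (fun _ => 22 * M / s) τ := by
    intro τ
    by_cases hτ : τ ∈ Icc (-(1 / 4)) (1 / 4 : ℝ)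
    · rw [Set.indicator_of_mem hτ]
      have h1 : inn τ = Complex.exp ((((r - s) * τ : ℝ) : ℂ) * Complex.I) *
          ∫ x in (-(1 / 2) : ℝ)..(1 / 2), C x τ * (Complex.exp (((0 * x : ℝ) : ℂ) * Complex.I) *
      (((x - t) ^ 2 + Real.exp (2 * τ) : ℝ) : ℂ) ^ (-(1 / 2 : ℂ) + (s : ℂ) * Complex.I)) := by
        rw [intervalIntegral.integral_eq_integral_of_support_subset, ← integral_const_mul]
        · apply integral_congr_ae
          refine Eventually.of_forall fun x => ?_
          simp only [zero_mul, Complex.ofReal_zero, Complex.exp_zero, one_mul]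
          ring
        · intro x hx
          have h2 : C x τ ≠ 0 := left_ne_zero_of_mul hx
          have h3 := abs_le.mp (hsupp x τ h2).1
          exact ⟨by linarith [h3.1], by linarith [h3.2]⟩
      rw [h1, norm_mul, Complex.norm_exp_ofReal_mul_I, one_mul]
      exact BKA_inner hOIB hC hM0 hM1 hs0 ht hτ.2
    · rw [Set.indicator_of_notMem hτ, hzero τ, norm_zero]
      by_contra h
      push Not at h
      exact hτ (abs_le.mp h)
  have hB2 : ∀ τ, ‖inn τ‖ ≤ (Icc (-(1 / 4)) (1 / 4 : ℝ)).indicator (fun _ => M / |t|) τ := by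
    intro τ
    by_cases hτ : τ ∈ Icc (-(1 / 4)) (1 / 4 : ℝ)
    · rw [Set.indicator_of_mem hτ]
      have h1 : ∀ x : ℝ, ‖C x τ * Complex.exp ((((r - s) * τ : ℝ) : ℂ) * Complex.I) *
    ((((x - t) ^ 2 + Real.exp (2 * τ) : ℝ)) : ℂ) ^ (-(1 / 2 : ℂ) + (s : ℂ) * Complex.I)‖ ≤
          (Icc (-(1 / 4)) (1 / 4 : ℝ)).indicator (fun _ => 2 * M / |t|) x := by
        intro x
        by_cases hx : x ∈ Icc (-(1 / 4)) (1 / 4 : ℝ)
        · rw [Set.indicator_of_mem hx, norm_mul, norm_mul, Complex.norm_exp_ofReal_mul_I, mul_one]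
          have hDpos : 0 < (x - t) ^ 2 + Real.exp (2 * τ) := by positivity
          rw [Complex.norm_cpow_eq_rpow_re_of_pos hDpos]
          have h2 : (-(1 / 2 : ℂ) + (s : ℂ) * Complex.I).re = -(1 / 2) := by simp
          rw [h2, Real.rpow_neg hDpos.le, ← Real.sqrt_eq_rpow]
          have hx' : |x| ≤ 1 / 4 := abs_le.mpr hx
          have h3 : |t| / 2 ≤ |x - t| := by
            have h4 : |t| ≤ |x| + |x - t| := by
              calc |t| = |x - (x - t)| := by
                    congr 1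
                    ring
                _ ≤ |x| + |x - t| := abs_sub _ _
            linarith
          have h5 : |t| / 2 ≤ √((x - t) ^ 2 + Real.exp (2 * τ)) := by
            apply Real.le_sqrt_of_sq_le
            have h6 : (|t| / 2) ^ 2 ≤ (x - t) ^ 2 := by
              rw [← sq_abs (x - t)]
              exact pow_le_pow_left₀ (by positivity) h3 2
            have h7 := Real.exp_pos (2 * τ)
            linarith
          have h6 : (√((x - t) ^ 2 + Real.exp (2 * τ)))⁻¹ ≤ (|t| / 2)⁻¹ := inv_anti₀ (by positivity) h5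
          calc ‖C x τ‖ * (√((x - t) ^ 2 + Real.exp (2 * τ)))⁻¹ ≤ M * (|t| / 2)⁻¹ :=
                mul_le_mul (hM0 x τ) h6 (by positivity) hM
            _ = 2 * M / |t| := by
                field_simp
        · rw [Set.indicator_of_notMem hx]
          have h2 : C x τ = 0 := by
            by_contra h
            exact hx (abs_le.mp (hsupp x τ h).1)
          rw [h2, zero_mul, zero_mul, norm_zero]
      have h2 := BKA_out h1
      have h3 : 2 * M / |t| / 2 = M / |t| := by ring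
      rw [h3] at h2
      exact h2
    · rw [Set.indicator_of_notMem hτ, hzero τ, norm_zero]
      by_contra h
      push Not at h
      exact hτ (abs_le.mp h)
  have h1 := BKA_out hB1
  have h2 := BKA_out hB2
  rw [← hbI] at h1 h2
  have e1 : r * ‖bI C r s t‖ ≤ 24 * M + 1 := by
    have h3 : 22 * M / s / 2 ≤ 12 * M / r := by
      rw [div_div, div_le_div_iff₀ (by positivity) hr0]
      nlinarith
    have h4 : r * ‖bI C r s t‖ ≤ r * (12 * M / r) := mul_le_mul_of_nonneg_left (h1.trans h3) hr0.le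
    have h5 : r * (12 * M / r) = 12 * M := by
      field_simp
    linarith
  have e2 : |t| * ‖bI C r s t‖ ≤ 24 * M + 1 := by
    have h4 : |t| * ‖bI C r s t‖ ≤ |t| * (M / |t| / 2) := mul_le_mul_of_nonneg_left h2 ht0.le
    have h5 : |t| * (M / |t| / 2) = M / 2 := by
      field_simp
    linarith
  rcases le_total r |t| with h | h
  · rw [max_eq_right h]
    exact e2
  · rw [max_eq_left h]
    exact e1

end Pool.Agent.RS
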