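import Pool.Agent.helper65.RS.BKG

/-!
# MP_07c750: rare scars, row BKB (the boundary integral for `|t| ≤ 4`)
-/

set_option autoImplicit false

open scoped MatrixGroups ContDiff Topology UpperHalfPlane ComplexConjugate
open UpperHalfPlane MeasureTheory Filter Set

namespace Pool.Agent.RS

theorem BKB_out {F : ℝ → ℂ} {B : ℝ} (h : ∀ τ, ‖F τ‖ ≤ (Icc (-(1 / 4)) (1 / 4 : ℝ)).indicator (fun _ => B) τ) :
    ‖∫ τ : ℝ, F τ‖ ≤ B / 2 := by
  have hind : Integrable ((Icc (-(1 / 4)) (1 / 4 : ℝ)).indicator (fun _ => B)) := by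
    rw [integrable_indicator_iff measurableSet_Icc]
    exact integrableOn_const (by simp)
  have h1 := norm_integral_le_of_norm_le hind (Eventually.of_forall h)
  rw [integral_indicator measurableSet_Icc, setIntegral_const] at h1
  have h2 : (volume.real (Icc (-(1 / 4)) (1 / 4 : ℝ))) • B = B / 2 := by
    rw [Real.volume_real_Icc, smul_eq_mul]
    norm_num
    ring
  rw [h2] at h1
  exact h1

theorem BKB_deriv (F : ℝ) : (deriv (fun τ : ℝ => F + Real.exp (2 * τ)) = fun τ => 2 * Real.exp (2 * τ)) ∧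
    ∀ τ, deriv (fun τ : ℝ => 2 * Real.exp (2 * τ)) τ = 4 * Real.exp (2 * τ) := by
  have h0 : ∀ τ : ℝ, HasDerivAt (fun τ : ℝ => Real.exp (2 * τ)) (2 * Real.exp (2 * τ)) τ := by
    intro τ
    have h1 : HasDerivAt (fun τ : ℝ => 2 * τ) 2 τ := by
      simpa using (hasDerivAt_id τ).const_mul 2
    have h2 := h1.exp
    rw [mul_comm] at h2
    exact h2
  constructor
  · funext τ
    exact ((h0 τ).const_add F).deriv
  · intro τ
    have h1 := ((h0 τ).const_mul 2).deriv
    rw [h1]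
    ring

theorem BKB_exp {τ : ℝ} (hτ : -(1 / 2) ≤ τ) : 0.3678 ≤ Real.exp (2 * τ) := by
  have h1 : Real.exp (-1) ≤ Real.exp (2 * τ) := Real.exp_le_exp.mpr (by linarith)
  have h2 := Real.exp_neg_one_gt_d9
  linarith

theorem BKB_inner (hOIB : OIB_stmt) {C : ℝ → ℝ → ℂ} (hC : CB C) {M : ℝ}
    (hM0 : ∀ x τ, ‖C x τ‖ ≤ M) (hM2 : ∀ x, ContDiff ℝ 1 (fun τ => C x τ) ∧ ∀ τ, ‖deriv (fun τ => C x τ) τ‖ ≤ M)
    {r s t x : ℝ} (hr : 1 ≤ r) (hs : |s - r| ≤ r / 100) (ht : |t| ≤ 4) (hx : |x| ≤ 1 / 4) :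
    ‖∫ τ in (-(1 / 2) : ℝ)..(1 / 2), C x τ * (Complex.exp ((((r - s) * τ : ℝ) : ℂ) * Complex.I) *
      (((x - t) ^ 2 + Real.exp (2 * τ) : ℝ) : ℂ) ^ (-(1 / 2 : ℂ) + (s : ℂ) * Complex.I))‖ ≤ 10200 * M / r := by
  have hr0 : 0 < r := by linarith
  obtain ⟨hs1, hs2⟩ := abs_le.mp hs
  have hs0 : 0 < s := by linarith
  have hM : 0 ≤ M := (norm_nonneg _).trans (hM0 0 0)
  obtain ⟨hd1, hd2⟩ := BKB_deriv ((x - t) ^ 2)
  have hF : (x - t) ^ 2 ≤ 18.0625 := by
    have h1 : |x - t| ≤ 4.25 := by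
      have h2 : |x - t| ≤ |x| + |t| := abs_sub _ _
      linarith
    have h2 : |x - t| ^ 2 ≤ 4.25 ^ 2 := pow_le_pow_left₀ (abs_nonneg _) h1 2
    rw [sq_abs] at h2
    linarith
  have hF0 : 0 ≤ (x - t) ^ 2 := sq_nonneg _
  have hzero : ∀ τ : ℝ, 1 / 4 < |τ| → C x τ = 0 := by
    intro τ hτ
    by_contra h
    have := (hC.2 x τ h).2
    linarith
  have key := BKG hOIB (fun τ => C x τ) (fun τ => (x - t) ^ 2 + Real.exp (2 * τ)) (r - s) s (1 / 2) 2 (2 * r)
    (r / 50) M M (hM2 x).1 (contDiff_const.add (Real.contDiff_exp.comp (contDiff_const.mul contDiff_id)))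
    (fun τ => by positivity) (hzero _ (by rw [abs_neg, abs_of_pos (by norm_num : (0 : ℝ) < 1 / 2)]; norm_num))
    (hzero _ (by rw [abs_of_pos (by norm_num : (0 : ℝ) < 1 / 2)]; norm_num)) (by norm_num)
    (by
      intro τ hτ
      have h1 := BKB_exp hτ.1
      linarith)
    (by
      intro τ hτ
      have h0 := Real.exp_pos (2 * τ)
      rw [hd1, abs_of_pos (by positivity)]
      linarith)
    (by positivity)
    (by
      intro τ hτ
      have h1 := BKB_exp hτ.1
      have h0 := Real.exp_pos (2 * τ)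
      rw [hd1]
      have hDpos : 0 < (x - t) ^ 2 + Real.exp (2 * τ) := by positivity
      have h2 : 0.039 ≤ 2 * Real.exp (2 * τ) / ((x - t) ^ 2 + Real.exp (2 * τ)) := by
        rw [le_div_iff₀ hDpos]
        linarith
      have h3 : s * 0.039 ≤ s * (2 * Real.exp (2 * τ) / ((x - t) ^ 2 + Real.exp (2 * τ))) :=
        mul_le_mul_of_nonneg_left h2 hs0.le
      refine le_trans ?_ (le_abs_self _)
      linarith)
    (by
      intro τ hτ
      have h0 := Real.exp_pos (2 * τ)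
      rw [hd1, hd2]
      have hDpos : 0 < (x - t) ^ 2 + Real.exp (2 * τ) := by positivity
      set E := Real.exp (2 * τ) with hE
      set F := (x - t) ^ 2 with hF'
      have h1 : 4 * E * (F + E) - 2 * E * (2 * E) = 4 * E * F := by ring
      rw [h1, abs_mul, abs_of_pos hs0, abs_div, abs_of_nonneg (by positivity : 0 ≤ 4 * E * F),
        abs_of_pos (by positivity : 0 < (F + E) ^ 2)]
      have h2 : 4 * E * F / (F + E) ^ 2 ≤ 1 := by
        rw [div_le_one (by positivity)]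
        nlinarith [sq_nonneg (E - F)]
      calc s * (4 * E * F / (F + E) ^ 2) ≤ s * 1 := mul_le_mul_of_nonneg_left h2 hs0.le
        _ ≤ 2 * r := by linarith)
    (fun τ => hM0 x τ) (hM2 x).2
  refine key.trans (le_of_eq ?_)
  field_simp
  ring

theorem BKB (hOIB : OIB_stmt) : BKB_stmt := by
  intro C hC
  obtain ⟨M, hM, hM0, -, hM2⟩ := BKG_M hC
  refine ⟨5100 * M + 1, by positivity, ?_⟩
  intro r s t hr hs ht
  have hr0 : 0 < r := by linarith
  let f : ℝ → ℝ → ℂ := fun τ x => C x τ * Complex.exp ((((r - s) * τ : ℝ) : ℂ) * Complex.I) *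
    ((((x - t) ^ 2 + Real.exp (2 * τ) : ℝ)) : ℂ) ^ (-(1 / 2 : ℂ) + (s : ℂ) * Complex.I)
  have hfc : Continuous (Function.uncurry f) := by
    have h1 : Continuous (fun p : ℝ × ℝ => C p.2 p.1) :=
      hC.1.continuous.comp (continuous_snd.prodMk continuous_fst)
    have h2 : Continuous (fun p : ℝ × ℝ => Complex.exp ((((r - s) * p.1 : ℝ) : ℂ) * Complex.I)) := by
      apply Complex.continuous_exp.comp
      fun_prop
    have h3 : Continuous (fun p : ℝ × ℝ =>
        ((((p.2 - t) ^ 2 + Real.exp (2 * p.1)) : ℝ) : ℂ) ^ (-(1 / 2 : ℂ) + (s : ℂ) * Complex.I)) := by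
      apply Continuous.cpow _ continuous_const
      · intro p
        rw [Complex.ofReal_mem_slitPlane]
        positivity
      · fun_prop
    exact (h1.mul h2).mul h3
  have hfs : HasCompactSupport (Function.uncurry f) := by
    apply HasCompactSupport.intro ((isCompact_Icc (a := -(1 / 4 : ℝ)) (b := 1 / 4)).prod
      (isCompact_Icc (a := -(1 / 4 : ℝ)) (b := 1 / 4)))
    rintro ⟨τ, x⟩ hx
    by_contra h
    have h1 : C x τ ≠ 0 := by
      intro h2
      apply h
      simp only [Function.uncurry, f, h2, zero_mul]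
    obtain ⟨h2, h3⟩ := hC.2 x τ h1
    exact hx ⟨abs_le.mp h3, abs_le.mp h2⟩
  have hswap : bI C r s t = ∫ x : ℝ, ∫ τ : ℝ, f τ x := by
    have h1 : bI C r s t = ∫ τ : ℝ, ∫ x : ℝ, f τ x := rfl
    rw [h1]
    exact integral_integral_swap (hfc.integrable_of_hasCompactSupport hfs)
  have hB : ∀ x, ‖∫ τ : ℝ, f τ x‖ ≤ (Icc (-(1 / 4)) (1 / 4 : ℝ)).indicator (fun _ => 10200 * M / r) x := by
    intro x
    by_cases hx : x ∈ Icc (-(1 / 4)) (1 / 4 : ℝ)
    · rw [Set.indicator_of_mem hx]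
      have h1 : ∫ τ : ℝ, f τ x = ∫ τ in (-(1 / 2) : ℝ)..(1 / 2), C x τ * (Complex.exp ((((r - s) * τ : ℝ) : ℂ) * Complex.I) *
      (((x - t) ^ 2 + Real.exp (2 * τ) : ℝ) : ℂ) ^ (-(1 / 2 : ℂ) + (s : ℂ) * Complex.I)) := by
        rw [intervalIntegral.integral_eq_integral_of_support_subset]
        · apply integral_congr_ae
          refine Eventually.of_forall fun τ => ?_
          simp only [f]
          ring
        · intro τ hτ
          have h2 : C x τ ≠ 0 := left_ne_zero_of_mul hτ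
          have h3 := abs_le.mp (hC.2 x τ h2).2
          exact ⟨by linarith [h3.1], by linarith [h3.2]⟩
      rw [h1]
      exact BKB_inner hOIB hC hM0 hM2 hr hs ht (abs_le.mpr hx)
    · rw [Set.indicator_of_notMem hx]
      have h1 : ∀ τ : ℝ, C x τ = 0 := by
        intro τ
        by_contra h
        exact hx (abs_le.mp (hC.2 x τ h).1)
      simp only [f, h1, zero_mul, integral_zero, norm_zero]
      exact le_rfl
  have h1 := BKB_out hB
  rw [← hswap] at h1
  have h4 : r * ‖bI C r s t‖ ≤ r * (10200 * M / r / 2) := mul_le_mul_of_nonneg_left h1 hr0.le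
  have h5 : r * (10200 * M / r / 2) = 5100 * M := by
    field_simp
    ring
  linarith

end Pool.Agent.RS
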