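import Pool.Agent.helper29.RS.SpecK

/-!
# MP_07c750: rare scars, row OIB (one integration by parts)
-/

set_option autoImplicit false

open scoped MatrixGroups ContDiff Topology UpperHalfPlane ComplexConjugate
open UpperHalfPlane MeasureTheory Filter Set

namespace Pool.Agent.RS

theorem OIB : OIB_stmt := by
  intro a θ A B m L a0 a1 hAB ha hθ haA haB hm hm1 hL h0 h1
  have hθ1 : ContDiff ℝ 1 (deriv θ) := by
    have h2 : ContDiff ℝ (1 + 1) θ := by
      have h3 : (1 + 1 : WithTop ℕ∞) = 2 := by norm_num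
      rw [h3]
      exact hθ
    exact (contDiff_succ_iff_deriv.mp h2).2.2
  have hne : ∀ x ∈ Icc A B, deriv θ x ≠ 0 := by
    intro x hx h
    have := hm1 x hx
    rw [h, abs_zero] at this
    linarith
  have hcθ : Continuous θ := hθ.continuous
  have hcθ1 : Continuous (deriv θ) := hθ1.continuous
  have hcθ2 : Continuous (deriv (deriv θ)) := hθ1.continuous_deriv le_rfl
  have hca : Continuous a := ha.continuous
  have hca1 : Continuous (deriv a) := ha.continuous_deriv le_rfl
  -- the functions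
  let E : ℝ → ℂ := fun x => Complex.exp ((θ x : ℂ) * Complex.I)
  let G : ℝ → ℂ := fun x => (deriv a x / (((deriv θ x : ℝ) : ℂ) * Complex.I) -
    a x * (((deriv (deriv θ) x : ℝ) : ℂ) * Complex.I) / (((deriv θ x : ℝ) : ℂ) * Complex.I) ^ 2) * E x
  have hEc : Continuous E := by
    apply Complex.continuous_exp.comp
    exact (Complex.continuous_ofReal.comp hcθ).mul continuous_const
  have hne' : ∀ x ∈ Icc A B, (((deriv θ x : ℝ) : ℂ) * Complex.I) ≠ 0 := by
    intro x hx
    exact mul_ne_zero (Complex.ofReal_ne_zero.mpr (hne x hx)) Complex.I_ne_zero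
  have hder : ∀ x ∈ uIcc A B, HasDerivAt (fun x => a x / (((deriv θ x : ℝ) : ℂ) * Complex.I) * E x)
      (a x * E x + G x) x := by
    intro x hx
    rw [uIcc_of_le hAB] at hx
    have d1 : HasDerivAt a (deriv a x) x := (ha.differentiable (by norm_num) x).hasDerivAt
    have d2 : HasDerivAt (fun x => ((deriv θ x : ℝ) : ℂ)) ((deriv (deriv θ) x : ℝ) : ℂ) x :=
      (hθ1.differentiable (by norm_num) x).hasDerivAt.ofReal_comp
    have d3 : HasDerivAt (fun x => ((deriv θ x : ℝ) : ℂ) * Complex.I) (((deriv (deriv θ) x : ℝ) : ℂ) * Complex.I) x :=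
      d2.mul_const Complex.I
    have d4 : HasDerivAt (fun x => ((θ x : ℝ) : ℂ)) ((deriv θ x : ℝ) : ℂ) x :=
      (hθ.differentiable (by norm_num) x).hasDerivAt.ofReal_comp
    have d5 : HasDerivAt E (E x * (((deriv θ x : ℝ) : ℂ) * Complex.I)) x := (d4.mul_const Complex.I).cexp
    have d6 := (d1.fun_div d3 (hne' x hx)).fun_mul d5
    have e1 : (deriv a x * (((deriv θ x : ℝ) : ℂ) * Complex.I) - a x * (((deriv (deriv θ) x : ℝ) : ℂ) * Complex.I)) /
        (((deriv θ x : ℝ) : ℂ) * Complex.I) ^ 2 * E x +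
        a x / (((deriv θ x : ℝ) : ℂ) * Complex.I) * (E x * (((deriv θ x : ℝ) : ℂ) * Complex.I)) = a x * E x + G x := by
      have h3 := hne' x hx
      simp only [G]
      generalize (((deriv θ x : ℝ) : ℂ) * Complex.I) = z at h3 ⊢
      field_simp
      ring
    rw [← e1]
    exact d6
  have hGc : ContinuousOn G (uIcc A B) := by
    rw [uIcc_of_le hAB]
    have c1 : ContinuousOn (fun x => (((deriv θ x : ℝ) : ℂ) * Complex.I)) (Icc A B) :=
      ((Complex.continuous_ofReal.comp hcθ1).mul continuous_const).continuousOn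
    have c2 : ContinuousOn (fun x => (((deriv (deriv θ) x : ℝ) : ℂ) * Complex.I)) (Icc A B) :=
      ((Complex.continuous_ofReal.comp hcθ2).mul continuous_const).continuousOn
    exact ((hca1.continuousOn.div c1 hne').sub ((hca.continuousOn.mul c2).div (c1.pow 2)
      (fun x hx => pow_ne_zero 2 (hne' x hx)))).mul hEc.continuousOn
  have hGi : IntervalIntegrable G volume A B := hGc.intervalIntegrable
  have haEi : IntervalIntegrable (fun x => a x * E x) volume A B := (hca.mul hEc).intervalIntegrable A B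
  have hint := intervalIntegral.integral_eq_sub_of_hasDerivAt hder (haEi.add hGi)
  rw [intervalIntegral.integral_add haEi hGi, haA, haB, zero_div, zero_div, zero_mul, zero_mul, sub_zero] at hint
  have hEq : ∫ x in A..B, a x * Complex.exp ((θ x : ℂ) * Complex.I) = -∫ x in A..B, G x :=
    eq_neg_of_add_eq_zero_left hint
  rw [hEq, norm_neg]
  have hGb : ∀ x ∈ Set.uIoc A B, ‖G x‖ ≤ a1 / m + a0 * L / m ^ 2 := by
    intro x hx
    have hx' : x ∈ Icc A B := by
      rw [uIoc_of_le hAB] at hx
      exact Ioc_subset_Icc_self hx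
    have hE : ‖E x‖ = 1 := by
      simp only [E]
      exact Complex.norm_exp_ofReal_mul_I (θ x)
    have hmx := hm1 x hx'
    have hpos : 0 < |deriv θ x| := lt_of_lt_of_le hm hmx
    have hn : ‖(((deriv θ x : ℝ) : ℂ) * Complex.I)‖ = |deriv θ x| := by
      rw [norm_mul, Complex.norm_I, mul_one, Complex.norm_real, Real.norm_eq_abs]
    have hn2 : ‖(((deriv (deriv θ) x : ℝ) : ℂ) * Complex.I)‖ = |deriv (deriv θ) x| := by
      rw [norm_mul, Complex.norm_I, mul_one, Complex.norm_real, Real.norm_eq_abs]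
    have b1 : ‖deriv a x / (((deriv θ x : ℝ) : ℂ) * Complex.I)‖ ≤ a1 / m := by
      rw [norm_div, hn]
      exact div_le_div₀ ((norm_nonneg _).trans (h1 x hx')) (h1 x hx') hm hmx
    have b2 : ‖a x * (((deriv (deriv θ) x : ℝ) : ℂ) * Complex.I) / (((deriv θ x : ℝ) : ℂ) * Complex.I) ^ 2‖ ≤ a0 * L / m ^ 2 := by
      rw [norm_div, norm_mul, norm_pow, hn, hn2]
      have c0 := h0 x hx'
      have cL := hL x hx'
      have c1 : ‖a x‖ * |deriv (deriv θ) x| ≤ a0 * L :=
        mul_le_mul c0 cL (abs_nonneg _) ((norm_nonneg _).trans c0)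
      have c2 : m ^ 2 ≤ |deriv θ x| ^ 2 := pow_le_pow_left₀ hm.le hmx 2
      exact div_le_div₀ ((mul_nonneg (norm_nonneg _) (abs_nonneg _)).trans c1) c1 (by positivity) c2
    simp only [G]
    rw [norm_mul, hE, mul_one]
    exact (norm_sub_le _ _).trans (add_le_add b1 b2)
  have hfin := intervalIntegral.norm_integral_le_of_norm_le_const hGb
  rw [abs_of_nonneg (by linarith : 0 ≤ B - A), mul_comm] at hfin
  exact hfin

end Pool.Agent.RS
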