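import Pool.Agent.helper29.RS.SpecK

/-!
# MP_07c750: rare scars, common lemma of the rows BKA and BKB: integration by parts with the amplitude `c D^(-1/2)`
and the phase `λ x + s log D`
-/

set_option autoImplicit false

open scoped MatrixGroups ContDiff Topology UpperHalfPlane ComplexConjugate
open UpperHalfPlane MeasureTheory Filter Set

namespace Pool.Agent.RS

theorem BKG_cpow {D s : ℝ} (hD : 0 < D) (lam x : ℝ) :
    Complex.exp (((lam * x : ℝ) : ℂ) * Complex.I) * (D : ℂ) ^ (-(1 / 2 : ℂ) + (s : ℂ) * Complex.I) =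
      ((D ^ (-(1 / 2) : ℝ) : ℝ) : ℂ) * Complex.exp (((lam * x + s * Real.log D : ℝ) : ℂ) * Complex.I) := by
  have h1 : (D : ℂ) ≠ 0 := Complex.ofReal_ne_zero.mpr hD.ne'
  have h2 : ((D ^ (-(1 / 2) : ℝ) : ℝ) : ℂ) = Complex.exp (((Real.log D * (-(1 / 2)) : ℝ) : ℂ)) := by
    rw [Real.rpow_def_of_pos hD, Complex.ofReal_exp]
  rw [h2, Complex.cpow_def_of_ne_zero h1, ← Complex.ofReal_log hD.le, ← Complex.exp_add, ← Complex.exp_add]
  congr 1
  push_cast
  ring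

theorem BKG (hOIB : OIB_stmt) (c : ℝ → ℂ) (D : ℝ → ℝ) (lam s d H L m M0 M1 : ℝ)
    (hc : ContDiff ℝ 1 c) (hD : ContDiff ℝ 2 D) (hpos : ∀ x, 0 < D x)
    (hcA : c (-(1 / 2)) = 0) (hcB : c (1 / 2) = 0) (hd : 0 < d)
    (hdD : ∀ x ∈ Icc (-(1 / 2) : ℝ) (1 / 2), d ^ 2 ≤ D x)
    (hH : ∀ x ∈ Icc (-(1 / 2) : ℝ) (1 / 2), |deriv D x| ≤ H * D x) (hm : 0 < m)
    (hmθ : ∀ x ∈ Icc (-(1 / 2) : ℝ) (1 / 2), m ≤ |lam + s * (deriv D x / D x)|)
    (hL : ∀ x ∈ Icc (-(1 / 2) : ℝ) (1 / 2),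
      |s * ((deriv (deriv D) x * D x - deriv D x * deriv D x) / D x ^ 2)| ≤ L)
    (hM0 : ∀ x, ‖c x‖ ≤ M0) (hM1 : ∀ x, ‖deriv c x‖ ≤ M1) :
    ‖∫ x in (-(1 / 2) : ℝ)..(1 / 2), c x * (Complex.exp (((lam * x : ℝ) : ℂ) * Complex.I) *
      ((D x : ℝ) : ℂ) ^ (-(1 / 2 : ℂ) + (s : ℂ) * Complex.I))‖ ≤
      ((M1 + M0 * H / 2) / d) / m + (M0 / d) * L / m ^ 2 := by
  have hM00 : 0 ≤ M0 := (norm_nonneg _).trans (hM0 0)
  have hD1 : ContDiff ℝ 1 (deriv D) := by
    have h2 : ContDiff ℝ (1 + 1) D := by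
      have h3 : (1 + 1 : WithTop ℕ∞) = 2 := by norm_num
      rw [h3]
      exact hD
    exact (contDiff_succ_iff_deriv.mp h2).2.2
  have hDd : ∀ x, HasDerivAt D (deriv D x) x := fun x => (hD.differentiable (by norm_num) x).hasDerivAt
  have hDd2 : ∀ x, HasDerivAt (deriv D) (deriv (deriv D) x) x := fun x =>
    (hD1.differentiable (by norm_num) x).hasDerivAt
  let P : ℝ → ℝ := fun x => D x ^ (-(1 / 2) : ℝ)
  let a : ℝ → ℂ := fun x => c x * ((P x : ℝ) : ℂ)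
  let θ : ℝ → ℝ := fun x => lam * x + s * Real.log (D x)
  have hP1 : ContDiff ℝ 1 P := by
    have h1 : ContDiff ℝ 1 D := hD.of_le (by norm_num)
    exact h1.rpow_const_of_ne (fun x => (hpos x).ne')
  have ha : ContDiff ℝ 1 a := hc.mul (Complex.ofRealCLM.contDiff.comp hP1)
  have hθ : ContDiff ℝ 2 θ := by
    have h1 : ContDiff ℝ 2 (fun x => Real.log (D x)) := hD.log (fun x => (hpos x).ne')
    exact (contDiff_const.mul contDiff_id).add (contDiff_const.mul h1)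
  have hθd : deriv θ = fun x => lam + s * (deriv D x / D x) := by
    funext x
    have h1 : HasDerivAt (fun x => Real.log (D x)) (deriv D x / D x) x := (hDd x).log (hpos x).ne'
    have h2 : HasDerivAt (fun x : ℝ => lam * x) lam x := by
      simpa using (hasDerivAt_id x).const_mul lam
    exact (h2.add (h1.const_mul s)).deriv
  have hθd2 : ∀ x, deriv (deriv θ) x = s * ((deriv (deriv D) x * D x - deriv D x * deriv D x) / D x ^ 2) := by
    intro x
    rw [hθd]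
    have h1 : HasDerivAt (fun x => deriv D x / D x)
        ((deriv (deriv D) x * D x - deriv D x * deriv D x) / D x ^ 2) x :=
      (hDd2 x).fun_div (hDd x) (hpos x).ne'
    exact ((h1.const_mul s).const_add lam).deriv
  have had : ∀ x, deriv a x = deriv c x * ((P x : ℝ) : ℂ) +
      c x * (((deriv D x * (-(1 / 2)) * D x ^ (-(1 / 2) - 1 : ℝ) : ℝ)) : ℂ) := by
    intro x
    have h1 : HasDerivAt P (deriv D x * (-(1 / 2)) * D x ^ (-(1 / 2) - 1 : ℝ)) x :=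
      (hDd x).rpow_const (Or.inl (hpos x).ne')
    have h2 : HasDerivAt c (deriv c x) x := (hc.differentiable (by norm_num) x).hasDerivAt
    exact (h2.fun_mul h1.ofReal_comp).deriv
  have hPpos : ∀ x, 0 < P x := fun x => Real.rpow_pos_of_pos (hpos x) _
  have hPd : ∀ x ∈ Icc (-(1 / 2) : ℝ) (1 / 2), P x ≤ 1 / d := by
    intro x hx
    have h1 := hdD x hx
    have h2 : d ≤ √(D x) := Real.le_sqrt_of_sq_le h1
    have h3 : P x = (√(D x))⁻¹ := by
      simp only [P]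
      rw [Real.rpow_neg (hpos x).le, ← Real.sqrt_eq_rpow]
    rw [h3, one_div]
    exact inv_anti₀ hd h2
  have hPm : ∀ x, D x ^ (-(1 / 2) - 1 : ℝ) = P x / D x := by
    intro x
    simp only [P]
    rw [Real.rpow_sub (hpos x), Real.rpow_one]
  have ha0 : ∀ x ∈ Icc (-(1 / 2) : ℝ) (1 / 2), ‖a x‖ ≤ M0 / d := by
    intro x hx
    have h1 : ‖a x‖ = ‖c x‖ * P x := by
      simp only [a]
      rw [norm_mul, Complex.norm_real, Real.norm_eq_abs, abs_of_pos (hPpos x)]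
    rw [h1]
    calc ‖c x‖ * P x ≤ M0 * (1 / d) := mul_le_mul (hM0 x) (hPd x hx) (hPpos x).le hM00
      _ = M0 / d := by ring
  have ha1 : ∀ x ∈ Icc (-(1 / 2) : ℝ) (1 / 2), ‖deriv a x‖ ≤ (M1 + M0 * H / 2) / d := by
    intro x hx
    rw [had x]
    have hM10 : 0 ≤ M1 := (norm_nonneg _).trans (hM1 0)
    have b1 : ‖deriv c x * ((P x : ℝ) : ℂ)‖ ≤ M1 * (1 / d) := by
      rw [norm_mul, Complex.norm_real, Real.norm_eq_abs, abs_of_pos (hPpos x)]
      exact mul_le_mul (hM1 x) (hPd x hx) (hPpos x).le hM10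
    have b2 : |deriv D x * (-(1 / 2)) * D x ^ (-(1 / 2) - 1 : ℝ)| ≤ H / 2 * (1 / d) := by
      rw [hPm x, abs_mul, abs_mul, abs_of_pos (div_pos (hPpos x) (hpos x)), abs_neg,
        abs_of_pos (by norm_num : (0 : ℝ) < 1 / 2)]
      have h1 := hH x hx
      have hH0 : 0 ≤ H := by
        by_contra hneg
        push Not at hneg
        have h2 : H * D x < 0 := mul_neg_of_neg_of_pos hneg (hpos x)
        have h3 := abs_nonneg (deriv D x)
        linarith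
      have h2 : |deriv D x| * (1 / 2) * (P x / D x) ≤ H * D x * (1 / 2) * (P x / D x) :=
        mul_le_mul_of_nonneg_right (mul_le_mul_of_nonneg_right h1 (by norm_num))
          (div_pos (hPpos x) (hpos x)).le
      have h3 : H * D x * (1 / 2) * (P x / D x) = H / 2 * P x := by
        have := (hpos x).ne'
        field_simp
      rw [h3] at h2
      exact h2.trans (mul_le_mul_of_nonneg_left (hPd x hx) (by positivity))
    have b3 : ‖c x * (((deriv D x * (-(1 / 2)) * D x ^ (-(1 / 2) - 1 : ℝ) : ℝ)) : ℂ)‖ ≤ M0 * (H / 2 * (1 / d)) := by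
      rw [norm_mul, Complex.norm_real, Real.norm_eq_abs]
      exact mul_le_mul (hM0 x) b2 (abs_nonneg _) hM00
    calc _ ≤ ‖deriv c x * ((P x : ℝ) : ℂ)‖ +
          ‖c x * (((deriv D x * (-(1 / 2)) * D x ^ (-(1 / 2) - 1 : ℝ) : ℝ)) : ℂ)‖ := norm_add_le _ _
      _ ≤ M1 * (1 / d) + M0 * (H / 2 * (1 / d)) := add_le_add b1 b3
      _ = (M1 + M0 * H / 2) / d := by ring
  have hAa : a (-(1 / 2)) = 0 := by
    simp only [a, hcA, zero_mul]
  have hBa : a (1 / 2) = 0 := by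
    simp only [a, hcB, zero_mul]
  have key := hOIB a θ (-(1 / 2)) (1 / 2) m L (M0 / d) ((M1 + M0 * H / 2) / d) (by norm_num) ha hθ hAa hBa hm
    (by
      intro x hx
      rw [hθd]
      exact hmθ x hx)
    (by
      intro x hx
      rw [hθd2 x]
      exact hL x hx) ha0 ha1
  have heq : ∫ x in (-(1 / 2) : ℝ)..(1 / 2), c x * (Complex.exp (((lam * x : ℝ) : ℂ) * Complex.I) *
      ((D x : ℝ) : ℂ) ^ (-(1 / 2 : ℂ) + (s : ℂ) * Complex.I)) =
      ∫ x in (-(1 / 2) : ℝ)..(1 / 2), a x * Complex.exp ((θ x : ℂ) * Complex.I) := by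
    apply intervalIntegral.integral_congr
    intro x _
    simp only [a, θ, P]
    rw [BKG_cpow (hpos x) lam x]
    ring
  rw [heq]
  refine key.trans (le_of_eq ?_)
  ring

/-- bounds for `C` and its partial derivatives -/
theorem BKG_M {C : ℝ → ℝ → ℂ} (hC : CB C) : ∃ M : ℝ, 0 ≤ M ∧ (∀ x τ, ‖C x τ‖ ≤ M) ∧
    (∀ τ, ContDiff ℝ 1 (fun x => C x τ) ∧ ∀ x, ‖deriv (fun x => C x τ) x‖ ≤ M) ∧
    (∀ x, ContDiff ℝ 1 (fun τ => C x τ) ∧ ∀ τ, ‖deriv (fun τ => C x τ) τ‖ ≤ M) := by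
  let F : ℝ × ℝ → ℂ := fun p => C p.1 p.2
  have hF : ContDiff ℝ ∞ F := hC.1
  have hsupp : HasCompactSupport F := by
    apply HasCompactSupport.intro ((isCompact_Icc (a := -(1 / 4 : ℝ)) (b := 1 / 4)).prod
      (isCompact_Icc (a := -(1 / 4 : ℝ)) (b := 1 / 4)))
    rintro ⟨x, τ⟩ hx
    by_contra h
    obtain ⟨h2, h3⟩ := hC.2 x τ h
    exact hx ⟨abs_le.mp h2, abs_le.mp h3⟩
  obtain ⟨M, hM⟩ := hF.continuous.bounded_above_of_compact_support hsupp
  have hF1 : ContDiff ℝ 1 F := hF.of_le (by exact_mod_cast le_top)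
  obtain ⟨M', hM'⟩ := (hF1.continuous_fderiv (by norm_num)).bounded_above_of_compact_support (hsupp.fderiv (𝕜 := ℝ))
  have hM0 : 0 ≤ M := (norm_nonneg _).trans (hM (0, 0))
  have hM'0 : 0 ≤ M' := (norm_nonneg _).trans (hM' (0, 0))
  refine ⟨M + M', by positivity, fun x τ => ?_, fun τ => ?_, fun x => ?_⟩
  · have := hM (x, τ)
    have h2 : ‖C x τ‖ ≤ M := this
    linarith
  · refine ⟨hF1.comp (contDiff_id.prodMk contDiff_const), fun x => ?_⟩
    have h1 : HasFDerivAt F (fderiv ℝ F (x, τ)) (x, τ) := (hF1.differentiable (by norm_num) (x, τ)).hasFDerivAt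
    have h2 : HasDerivAt (fun x : ℝ => (x, τ)) ((1 : ℝ), (0 : ℝ)) x := (hasDerivAt_id x).prodMk (hasDerivAt_const x τ)
    have h3 : HasDerivAt (F ∘ fun x : ℝ => (x, τ)) (fderiv ℝ F (x, τ) (1, 0)) x :=
      HasFDerivAt.comp_hasDerivAt (f := fun x : ℝ => (x, τ)) x h1 h2
    have h4 : deriv (fun x => C x τ) x = fderiv ℝ F (x, τ) (1, 0) := h3.deriv
    rw [h4]
    have h5 := (fderiv ℝ F (x, τ)).le_opNorm (1, 0)
    have h6 : ‖((1 : ℝ), (0 : ℝ))‖ = 1 := by simp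
    rw [h6, mul_one] at h5
    have := hM' (x, τ)
    linarith
  · refine ⟨hF1.comp (contDiff_const.prodMk contDiff_id), fun τ => ?_⟩
    have h1 : HasFDerivAt F (fderiv ℝ F (x, τ)) (x, τ) := (hF1.differentiable (by norm_num) (x, τ)).hasFDerivAt
    have h2 : HasDerivAt (fun τ : ℝ => (x, τ)) ((0 : ℝ), (1 : ℝ)) τ := (hasDerivAt_const τ x).prodMk (hasDerivAt_id τ)
    have h3 : HasDerivAt (F ∘ fun τ : ℝ => (x, τ)) (fderiv ℝ F (x, τ) (0, 1)) τ :=
      HasFDerivAt.comp_hasDerivAt (f := fun τ : ℝ => (x, τ)) τ h1 h2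
    have h4 : deriv (fun τ => C x τ) τ = fderiv ℝ F (x, τ) (0, 1) := h3.deriv
    rw [h4]
    have h5 := (fderiv ℝ F (x, τ)).le_opNorm (0, 1)
    have h6 : ‖((0 : ℝ), (1 : ℝ))‖ = 1 := by simp
    rw [h6, mul_one] at h5
    have := hM' (x, τ)
    linarith

end Pool.Agent.RS
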